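import Pool.Agent.Helper35.PX.Goals

/-!
# Packet X4 (MP_bec853_al): elimination of the dictionary of a letter
-/

set_option autoImplicit false
set_option linter.unusedSectionVars false

namespace Pool.Agent.Helper96.PX

open Pool.Agent.Helper35.PP Pool.Agent.Helper35.PX
open scoped ENNReal

section lists

variable {β : Type*}

theorem exists_prefix_split (w : List β) : ∀ P : List β,
    ∃ p w', w = p ++ w' ∧ p <+: P ∧ ∀ x t, w' = x :: t → ¬ (p ++ [x] <+: P) := by
  classical
  induction w with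
  | nil => intro P; exact ⟨[], [], rfl, List.nil_prefix, by simp⟩
  | cons a w ih =>
    intro P
    by_cases h : ∃ P', P = a :: P'
    · obtain ⟨P', rfl⟩ := h
      obtain ⟨p, w', h1, h2, h3⟩ := ih P'
      refine ⟨a :: p, w', by rw [h1]; rfl, by simpa using h2, ?_⟩
      intro x t hx hp
      exact h3 x t hx (by simpa using hp)
    · refine ⟨[], a :: w, rfl, List.nil_prefix, ?_⟩
      intro x t hx hp
      obtain ⟨rfl, rfl⟩ := List.cons.inj hx
      obtain ⟨t', ht'⟩ := hp
      exact h ⟨t', ht'.symm⟩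

theorem exists_suffix_split (w : List β) (Q : List β) :
    ∃ m q, w = m ++ q ∧ q <:+ Q ∧ ∀ x t, m = t ++ [x] → ¬ (x :: q <:+ Q) := by
  obtain ⟨p, w', h1, h2, h3⟩ := exists_prefix_split w.reverse Q.reverse
  refine ⟨w'.reverse, p.reverse, ?_, ?_, ?_⟩
  · have := congrArg List.reverse h1
    simpa using this
  · rw [← List.reverse_prefix, List.reverse_reverse]; exact h2
  · intro x t hx hs
    have hw : w' = x :: t.reverse := by
      have := congrArg List.reverse hx
      simpa using this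
    apply h3 x _ hw
    rw [← List.reverse_prefix] at hs
    simpa using hs

end lists

section main

variable {α : Type} [Fintype α] [DecidableEq α]

/-- words without the letter `i` -/
def ZW (i : α) (v : List (α × Bool)) : Prop := ∀ x ∈ v, x.1 ≠ i

def Zs (i : α) (S : Set (List (α × Bool))) : Set (List (α × Bool)) := {v | v ∈ S ∧ ∀ x ∈ v, x.1 ≠ i}

def Ts (i : α) (bad : (α × Bool) → (α × Bool) → Prop) (S : Set (List (α × Bool))) :
    Set (List (α × Bool)) := {v | v ∈ S ∧ NB i bad v}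

/-- blocks starting (ending) with a long dictionary word -/
def DB (i : α) (S : Set (List (α × Bool))) (L : ℕ) (P Q : Bool → List (α × Bool)) :
    Set (List (α × Bool)) :=
  ⋃ s : Bool, ({w | w ∈ Zs i S ∧ (P s).length = L + 1 ∧ P s <+: w} ∪
    {w | w ∈ Zs i S ∧ (Q s).length = L + 1 ∧ Q s <:+ w})

def Pne (P : List (α × Bool)) : Set (List (α × Bool)) := {p | p <+: P ∧ p ≠ []}
def Qne (Q : List (α × Bool)) : Set (List (α × Bool)) := {q | q <:+ Q ∧ q ≠ []}

/-- connectors -/
def KK (i : α) (S : Set (List (α × Bool))) (L : ℕ) (P Q : Bool → List (α × Bool)) :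
    Set (List (α × Bool)) :=
  ⋃ s : Bool, (app (Qne (Q s)) (app {[(i, s)]} (({[]} ∪ Pne (P s)) ∪ DB i S L P Q)) ∪
    app {[(i, s)]} (Pne (P s) ∪ DB i S L P Q))

def Dec (i : α) (bad : (α × Bool) → (α × Bool) → Prop) (S : Set (List (α × Bool))) (L : ℕ)
    (P Q : Bool → List (α × Bool)) : ℕ → Set (List (α × Bool))
  | 0 => Ts i bad S
  | n + 1 => Ts i bad S ∪ app (Ts i bad S) (app (KK i S L P Q) (Dec i bad S L P Q n))

theorem Ts_sub_Dec (i : α) (bad : (α × Bool) → (α × Bool) → Prop) (S : Set (List (α × Bool)))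
    (L : ℕ) (P Q : Bool → List (α × Bool)) (n : ℕ) : Ts i bad S ⊆ Dec i bad S L P Q n := by
  cases n with
  | zero => exact le_refl _
  | succ n => exact Set.subset_union_left

theorem Dec_succ (i : α) (bad : (α × Bool) → (α × Bool) → Prop) (S : Set (List (α × Bool)))
    (L : ℕ) (P Q : Bool → List (α × Bool)) (n : ℕ) :
    Dec i bad S L P Q n ⊆ Dec i bad S L P Q (n + 1) := by
  induction n with
  | zero => exact Set.subset_union_left
  | succ n ih =>
    apply Set.union_subset_union_right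
    rintro w ⟨a, ha, b, ⟨c, hc, d, hd, rfl⟩, rfl⟩
    exact ⟨a, ha, _, ⟨c, hc, d, ih hd, rfl⟩, rfl⟩

theorem Dec_mono (i : α) (bad : (α × Bool) → (α × Bool) → Prop) (S : Set (List (α × Bool)))
    (L : ℕ) (P Q : Bool → List (α × Bool)) : Monotone (Dec i bad S L P Q) :=
  monotone_nat_of_le_succ (Dec_succ i bad S L P Q)

/-- extension of an `NB` word on the left by a block and a letter `i` -/
theorem NB_extend {i : α} {bad : (α × Bool) → (α × Bool) → Prop} {m t : List (α × Bool)}
    {s : Bool} (hm : NB i bad m) (ht : NB i bad t) : NB i bad (m ++ (i, s) :: t) := by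
  intro a x y b hab hx hy
  -- position of the pair
  rcases List.append_eq_append_iff.1 hab with ⟨c, hc1, hc2⟩ | ⟨c, hc1, hc2⟩
  · -- a = m ++ c, (i,s)::t = c ++ x::y::b
    cases c with
    | nil =>
      simp only [List.nil_append, List.cons.injEq] at hc2
      exact absurd (by rw [← hc2.1]) hx
    | cons c0 c =>
      simp only [List.cons_append, List.cons.injEq] at hc2
      exact ht c x y b hc2.2 hx hy
  · -- m = a ++ c, x::y::b = c ++ (i,s)::t
    cases c with
    | nil =>
      simp only [List.nil_append, List.cons.injEq] at hc2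
      exact absurd (by rw [hc2.1]) hx
    | cons c0 c =>
      simp only [List.cons_append, List.cons.injEq] at hc2
      obtain ⟨rfl, hc2⟩ := hc2
      cases c with
      | nil =>
        simp only [List.nil_append, List.cons.injEq] at hc2
        exact absurd (by rw [hc2.1]) hy
      | cons c1 c =>
        simp only [List.cons_append, List.cons.injEq] at hc2
        obtain ⟨rfl, hc2⟩ := hc2
        exact hm a x y c hc1 hx hy

theorem Dec_extend {i : α} {bad : (α × Bool) → (α × Bool) → Prop} {S : Set (List (α × Bool))}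
    (hS : FactorClosed S) {L : ℕ} {P Q : Bool → List (α × Bool)} {n : ℕ}
    {m d : List (α × Bool)} {s : Bool} (hm : NB i bad m) (hd : d ∈ Dec i bad S L P Q n)
    (hmS : m ++ (i, s) :: d ∈ S) : m ++ (i, s) :: d ∈ Dec i bad S L P Q n := by
  cases n with
  | zero => exact ⟨hmS, NB_extend hm hd.2⟩
  | succ n =>
    rcases hd with hd | ⟨t, ht, kd, hkd, rfl⟩
    · exact Or.inl ⟨hmS, NB_extend hm hd.2⟩
    · refine Or.inr ⟨m ++ (i, s) :: t, ⟨?_, NB_extend hm ht.2⟩, kd, hkd, by simp⟩
      apply hS [] (m ++ (i, s) :: t) kd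
      simpa using hmS

theorem exists_first {i : α} : ∀ v : List (α × Bool), (∃ x ∈ v, x.1 = i) →
    ∃ w σ v'', v = w ++ (i, σ) :: v'' ∧ ∀ x ∈ w, x.1 ≠ i := by
  intro v
  induction v with
  | nil => rintro ⟨x, hx, _⟩; simp at hx
  | cons a v ih =>
    intro h
    by_cases ha : a.1 = i
    · exact ⟨[], a.2, v, by rw [← ha]; rfl, by simp⟩
    · obtain ⟨x, hx, hxi⟩ := h
      have hxv : x ∈ v := by
        rcases List.mem_cons.1 hx with rfl | h
        · exact absurd hxi ha
        · exact h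
      obtain ⟨w, σ, v'', h1, h2⟩ := ih ⟨x, hxv, hxi⟩
      refine ⟨a :: w, σ, v'', by rw [h1]; rfl, ?_⟩
      intro y hy
      rcases List.mem_cons.1 hy with rfl | h
      · exact ha
      · exact h2 y h

theorem NB_nil {i : α} {bad : (α × Bool) → (α × Bool) → Prop} : NB i bad [] := by
  intro a x y b h
  simp at h

theorem nil_mem {S : Set (List (α × Bool))} (hS : FactorClosed S) {u : List (α × Bool)}
    (hu : u ∈ S) : [] ∈ S := hS [] [] u (by simpa using hu)

theorem take_prefix_of {P p w : List (α × Bool)} {L : ℕ} (hp : p <+: P) (hL : L < p.length)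
    (hw : p <+: w) : (P.take (L + 1)).length = L + 1 ∧ P.take (L + 1) <+: w := by
  have h1 := hp.length_le
  refine ⟨by rw [List.length_take]; omega, ?_⟩
  refine List.IsPrefix.trans ?_ hw
  rw [List.prefix_iff_eq_take] at hp
  rw [hp, List.prefix_take_iff]
  refine ⟨List.take_prefix _ _, ?_⟩
  rw [List.length_take]
  omega

theorem rtake_suffix_of {Q q w : List (α × Bool)} {L : ℕ} (hq : q <:+ Q) (hL : L < q.length)
    (hw : q <:+ w) : (Q.rtake (L + 1)).length = L + 1 ∧ Q.rtake (L + 1) <:+ w := by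
  have h := take_prefix_of (P := Q.reverse) (p := q.reverse) (w := w.reverse) (L := L)
    (by rwa [List.reverse_prefix]) (by simpa using hL) (by rwa [List.reverse_prefix])
  rw [List.rtake_eq_reverse_take_reverse]
  refine ⟨by rw [List.length_reverse]; exact h.1, ?_⟩
  rw [← List.reverse_prefix, List.reverse_reverse]
  exact h.2

theorem claim {i : α} {bad : (α × Bool) → (α × Bool) → Prop} {S : Set (List (α × Bool))}
    (hS : FactorClosed S) (L : ℕ) {P0 Q0 : Bool → List (α × Bool)} {u : List (α × Bool)}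
    (hu : u ∈ S) (hz : ZRule i bad P0 Q0 u) (n : ℕ) :
    ∀ v s v', v.length ≤ n → v = (i, s) :: v' → (∃ s0, v.getLast? = some (i, s0)) →
      ∀ m q a b, u = a ++ (m ++ (q ++ v)) ++ b → NB i bad m →
      (q = [] ∨ q ∈ Qne ((Q0 s).rtake (L + 1))) →
      m ++ (q ++ v) ∈ Dec i bad S L (fun s => (P0 s).take (L + 1))
        (fun s => (Q0 s).rtake (L + 1)) n := by
  induction n with
  | zero =>
    intro v s v' hn hv
    rw [hv] at hn; simp at hn
  | succ n ih =>
    intro v s v' hn hv hlast m q a b hu' hm hq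
    have hnil := nil_mem hS hu
    have hmS : m ∈ S := by
      apply hS a m (q ++ v ++ b)
      rw [hu'] at hu; simpa using hu
    have hmqv : m ++ (q ++ v) ∈ S := by
      apply hS a _ b; rw [← hu']; exact hu
    by_cases hv' : v' = []
    · -- a single letter
      subst hv'
      rcases hq with rfl | hq
      · apply Ts_sub_Dec
        rw [hv] at hmqv ⊢
        exact ⟨hmqv, NB_extend hm NB_nil⟩
      · refine Or.inr ⟨m, ⟨hmS, hm⟩, q ++ v, ⟨q ++ v, ?_, [], ?_, by simp⟩, rfl⟩
        · refine Set.mem_iUnion.2 ⟨s, Or.inl ⟨q, hq, v, ⟨[(i, s)], rfl, [], ?_, by simpa using hv⟩, rfl⟩⟩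
          exact Or.inl (Or.inl rfl)
        · exact Ts_sub_Dec _ _ _ _ _ _ _ ⟨hnil, NB_nil⟩
    · -- split off the next block
      obtain ⟨s0, hs0⟩ := hlast
      have hlast' : v'.getLast? = some (i, s0) := by
        rw [hv, List.getLast?_cons_of_ne_nil hv'] at hs0
        exact hs0
      obtain ⟨w, σ, v'', hw, hwi⟩ := exists_first v' ⟨(i, s0), List.mem_of_getLast? hlast', rfl⟩
      have hlast2 : ((i, σ) :: v'').getLast? = some (i, s0) := by
        rw [hw, List.getLast?_append_of_ne_nil _ (by simp)] at hlast'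
        exact hlast'
      have hlen : ((i, σ) :: v'').length ≤ n := by
        rw [hv, hw] at hn
        simp only [List.length_cons, List.length_append] at hn ⊢
        omega
      obtain ⟨p, w', hpw, hpP, hpmax⟩ := exists_prefix_split w (P0 s)
      obtain ⟨m', q', hmq, hqQ, hqmax⟩ := exists_suffix_split w' (Q0 σ)
      -- no bad pair in `m'`
      have hm'NB : NB i bad m' := by
        intro w1 x y w2 hxy hx hy hbad
        have hblock : w = (p ++ w1) ++ x :: y :: (w2 ++ q') := by
          rw [hpw, hmq, hxy]; simp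
        have hz' := hz (a ++ (m ++ q)) (p ++ w1) x y (w2 ++ q') (v'' ++ b) s σ (by
          rw [hu', hv, hw, ← hblock]; simp) (by rw [← hblock]; exact hwi) hbad
        rcases hz' with hz' | hz'
        · -- suffix
          obtain ⟨x0, t0, ht0⟩ : ∃ x0 t0, y :: w2 = t0 ++ [x0] :=
            ⟨(y :: w2).getLast (by simp), (y :: w2).dropLast,
              (List.dropLast_append_getLast (by simp)).symm⟩
          apply hqmax x0 (w1 ++ x :: t0) (by rw [hxy, ht0]; simp)
          refine List.IsSuffix.trans ?_ hz'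
          exact ⟨t0, by
            have := congrArg (fun l => l ++ q') ht0
            simpa using this.symm⟩
        · cases w1 with
          | nil =>
            apply hpmax x (y :: w2 ++ q') (by rw [hmq, hxy]; simp)
            simpa using hz'
          | cons c w1 =>
            apply hpmax c (w1 ++ x :: y :: w2 ++ q') (by rw [hmq, hxy]; simp)
            refine List.IsPrefix.trans ?_ hz'
            exact ⟨w1 ++ [x], by simp⟩
      have hv2 : v = (i, s) :: (p ++ (m' ++ (q' ++ (i, σ) :: v''))) := by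
        rw [hv, hw, hpw, hmq]; simp
      by_cases hcase : p.length ≤ L ∧ q'.length ≤ L
      · -- short overlaps
        have hd := ih ((i, σ) :: v'') σ v'' hlen rfl ⟨s0, hlast2⟩ m' q'
          (a ++ (m ++ q ++ (i, s) :: p)) b (by rw [hu', hv2]; simp) hm'NB (by
            by_cases hq' : q' = []
            · exact Or.inl hq'
            · refine Or.inr ⟨?_, hq'⟩
              rw [List.rtake_eq_reverse_take_reverse, ← List.reverse_prefix, List.reverse_reverse,
                List.prefix_take_iff]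
              exact ⟨by rwa [List.reverse_prefix], by simp; omega⟩)
        rcases hq with rfl | hq
        · by_cases hp : p = []
          · subst hp
            have e : m ++ ([] ++ v) = m ++ (i, s) :: (m' ++ (q' ++ (i, σ) :: v'')) := by
              rw [hv2]; simp
            rw [e]
            apply Dec_extend hS hm (Dec_succ _ _ _ _ _ _ _ hd)
            rw [← e]; exact hmqv
          · refine Or.inr ⟨m, ⟨hmS, hm⟩, v, ⟨(i, s) :: p, ?_, _, hd, by rw [hv2]; simp⟩, by simp⟩
            refine Set.mem_iUnion.2 ⟨s, Or.inr ⟨[(i, s)], rfl, p, Or.inl ⟨?_, hp⟩, rfl⟩⟩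
            rw [List.prefix_take_iff]
            exact ⟨hpP, by omega⟩
        · refine Or.inr ⟨m, ⟨hmS, hm⟩, q ++ v, ⟨q ++ (i, s) :: p, ?_, _, hd, by rw [hv2]; simp⟩,
            rfl⟩
          refine Set.mem_iUnion.2 ⟨s, Or.inl ⟨q, hq, (i, s) :: p, ⟨[(i, s)], rfl, p, Or.inl ?_, rfl⟩,
            rfl⟩⟩
          by_cases hp : p = []
          · exact Or.inl hp
          · refine Or.inr ⟨?_, hp⟩
            rw [List.prefix_take_iff]
            exact ⟨hpP, by omega⟩
      · -- long overlap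
        have hwS : w ∈ Zs i S := by
          refine ⟨?_, hwi⟩
          apply hS (a ++ (m ++ q ++ [(i, s)])) w ((i, σ) :: v'' ++ b)
          rw [hu', hv, hw] at hu; simpa using hu
        have hwDB : w ∈ DB i S L (fun s => (P0 s).take (L + 1)) (fun s => (Q0 s).rtake (L + 1)) := by
          by_cases hpL : p.length ≤ L
          · have hqL : L < q'.length := by
              by_contra hcon
              exact hcase ⟨hpL, by omega⟩
            have := rtake_suffix_of hqQ hqL (w := w) ⟨p ++ m', by rw [hpw, hmq]; simp⟩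
            exact Set.mem_iUnion.2 ⟨σ, Or.inr ⟨hwS, this.1, this.2⟩⟩
          · have := take_prefix_of hpP (not_le.1 hpL) (w := w) ⟨w', hpw.symm⟩
            exact Set.mem_iUnion.2 ⟨s, Or.inl ⟨hwS, this.1, this.2⟩⟩
        have hd := ih ((i, σ) :: v'') σ v'' hlen rfl ⟨s0, hlast2⟩ [] []
          (a ++ (m ++ q ++ (i, s) :: w)) b (by rw [hu', hv, hw]; simp) NB_nil (Or.inl rfl)
        simp only [List.nil_append] at hd
        refine Or.inr ⟨m, ⟨hmS, hm⟩, q ++ v, ⟨q ++ (i, s) :: w, ?_, _, hd, by rw [hv, hw]; simp⟩,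
          rfl⟩
        rcases hq with rfl | hq
        · exact Set.mem_iUnion.2 ⟨s, Or.inr ⟨[(i, s)], rfl, w, Or.inr hwDB, rfl⟩⟩
        · exact Set.mem_iUnion.2 ⟨s, Or.inl ⟨q, hq, (i, s) :: w, ⟨[(i, s)], rfl, w, Or.inr hwDB, rfl⟩,
            rfl⟩⟩

/-- the generating function of a set of nonempty words with different lengths -/
theorem W_inj_len {z : ℝ≥0∞} {A : Set (List (α × Bool))}
    (hinj : ∀ v ∈ A, ∀ w ∈ A, v.length = w.length → v = w) (hne : [] ∉ A) :
    W z A ≤ z * (1 - z)⁻¹ := by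
  have h1 : Function.Injective (fun v : A => (v : List (α × Bool)).length - 1) := by
    rintro ⟨v, hv⟩ ⟨w, hw⟩ h
    simp only at h
    have hv0 : v.length ≠ 0 := fun h => hne (by rwa [List.length_eq_zero_iff.1 h] at hv)
    have hw0 : w.length ≠ 0 := fun h => hne (by rwa [List.length_eq_zero_iff.1 h] at hw)
    exact Subtype.ext (hinj v hv w hw (by omega))
  have h2 := ENNReal.tsum_comp_le_tsum_of_injective h1 (fun n : ℕ => z ^ (n + 1))
  have h3 : ∑' n : ℕ, z ^ (n + 1) = z * (1 - z)⁻¹ := by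
    rw [← ENNReal.tsum_geometric, ← ENNReal.tsum_mul_left]
    simp only [pow_succ']
  rw [h3] at h2
  refine le_trans (le_of_eq ?_) h2
  unfold W
  refine tsum_congr ?_
  rintro ⟨v, hv⟩
  have hv0 : v.length ≠ 0 := fun h => hne (by rwa [List.length_eq_zero_iff.1 h] at hv)
  simp only
  congr 1
  omega

theorem W_Pne (z : ℝ≥0∞) (P : List (α × Bool)) : W z (Pne P) ≤ z * (1 - z)⁻¹ := by
  apply W_inj_len
  · rintro v ⟨hv, _⟩ w ⟨hw, _⟩ h
    rw [List.prefix_iff_eq_take] at hv hw
    rw [hv, hw, h]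
  · rintro ⟨_, h⟩; exact h rfl

theorem W_Qne (z : ℝ≥0∞) (Q : List (α × Bool)) : W z (Qne Q) ≤ z * (1 - z)⁻¹ := by
  apply W_inj_len
  · rintro v ⟨hv, _⟩ w ⟨hw, _⟩ h
    rw [List.suffix_iff_eq_drop] at hv hw
    rw [hv, hw, h]
  · rintro ⟨_, h⟩; exact h rfl

theorem W_DB {i : α} {S : Set (List (α × Bool))} (hS : FactorClosed S) (L : ℕ)
    (P Q : Bool → List (α × Bool)) (z : ℝ≥0∞) :
    W z (DB i S L P Q) ≤ 4 * (z ^ (L + 1) * W z (Zs i S)) := by
  have hP : ∀ s, W z {w | w ∈ Zs i S ∧ (P s).length = L + 1 ∧ P s <+: w} ≤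
      z ^ (L + 1) * W z (Zs i S) := by
    intro s
    by_cases h : (P s).length = L + 1
    · have hsub : {w | w ∈ Zs i S ∧ (P s).length = L + 1 ∧ P s <+: w} ⊆ app {P s} (Zs i S) := by
        rintro w ⟨hw, _, t, ht⟩
        refine ⟨P s, rfl, t, ⟨hS (P s) t [] (by simpa [ht] using hw.1), ?_⟩, ht.symm⟩
        intro x hx
        exact hw.2 x (by rw [← ht]; simp [hx])
      refine (W_mono hsub).trans ((W_app_le _ _ _).trans ?_)
      rw [W_singleton, h]
    · have : {w | w ∈ Zs i S ∧ (P s).length = L + 1 ∧ P s <+: w} = ∅ := by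
        ext w; simp [h]
      rw [this, W_empty]
      exact zero_le
  have hQ : ∀ s, W z {w | w ∈ Zs i S ∧ (Q s).length = L + 1 ∧ Q s <:+ w} ≤
      z ^ (L + 1) * W z (Zs i S) := by
    intro s
    by_cases h : (Q s).length = L + 1
    · have hsub : {w | w ∈ Zs i S ∧ (Q s).length = L + 1 ∧ Q s <:+ w} ⊆ app (Zs i S) {Q s} := by
        rintro w ⟨hw, _, t, ht⟩
        refine ⟨t, ⟨hS [] t (Q s) (by simpa [ht] using hw.1), ?_⟩, Q s, rfl, ht.symm⟩
        intro x hx
        exact hw.2 x (by rw [← ht]; simp [hx])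
      refine (W_mono hsub).trans ((W_app_le _ _ _).trans ?_)
      rw [W_singleton, h, mul_comm]
    · have : {w | w ∈ Zs i S ∧ (Q s).length = L + 1 ∧ Q s <:+ w} = ∅ := by
        ext w; simp [h]
      rw [this, W_empty]
      exact zero_le
  refine (W_iUnion_le _ _).trans ?_
  rw [Fintype.sum_bool]
  calc _ ≤ ((z ^ (L + 1) * W z (Zs i S)) + (z ^ (L + 1) * W z (Zs i S))) +
        ((z ^ (L + 1) * W z (Zs i S)) + (z ^ (L + 1) * W z (Zs i S))) :=
        add_le_add ((W_union_le _ _ _).trans (add_le_add (hP _) (hQ _)))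
          ((W_union_le _ _ _).trans (add_le_add (hP _) (hQ _)))
    _ = _ := by ring

theorem W_KK {i : α} {S : Set (List (α × Bool))} (L : ℕ)
    (P Q : Bool → List (α × Bool)) (z D : ℝ≥0∞) (hD : W z (DB i S L P Q) ≤ D) :
    W z (KK i S L P Q) ≤ 2 * ((z * (1 - z)⁻¹) * (z * ((1 + z * (1 - z)⁻¹) + D)) +
      z * (z * (1 - z)⁻¹ + D)) := by
  refine (W_iUnion_le _ _).trans ?_
  rw [Fintype.sum_bool]
  have h1 : ∀ s, W z (app (Qne (Q s)) (app {[(i, s)]} (({[]} ∪ Pne (P s)) ∪ DB i S L P Q)) ∪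
    app {[(i, s)]} (Pne (P s) ∪ DB i S L P Q)) ≤
      ((z * (1 - z)⁻¹) * (z * ((1 + z * (1 - z)⁻¹) + D)) +
      z * (z * (1 - z)⁻¹ + D)) := by
    intro s
    refine (W_union_le _ _ _).trans (add_le_add ?_ ?_)
    · refine (W_app_le _ _ _).trans (mul_le_mul' (W_Qne _ _) ?_)
      refine (W_app_le _ _ _).trans (mul_le_mul' ?_ ?_)
      · rw [W_singleton]; simp
      · refine (W_union_le _ _ _).trans (add_le_add ?_ hD)
        refine (W_union_le _ _ _).trans (add_le_add ?_ (W_Pne _ _))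
        rw [W_singleton]; simp
    · refine (W_app_le _ _ _).trans (mul_le_mul' ?_ ?_)
      · rw [W_singleton]; simp
      · exact (W_union_le _ _ _).trans (add_le_add (W_Pne _ _) hD)
  refine (add_le_add (h1 _) (h1 _)).trans (le_of_eq ?_)
  ring

theorem W_Dec {i : α} {bad : (α × Bool) → (α × Bool) → Prop} {S : Set (List (α × Bool))} (L : ℕ)
    (P Q : Bool → List (α × Bool)) (z : ℝ≥0∞) (ω κ : ℝ) (hω0 : 0 ≤ ω) (hκ0 : 0 ≤ κ)
    (hκω : κ * ω < 1) (hω : W z (Ts i bad S) ≤ ENNReal.ofReal ω)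
    (hκ : W z (KK i S L P Q) ≤ ENNReal.ofReal κ) (n : ℕ) :
    W z (Dec i bad S L P Q n) ≤ ENNReal.ofReal (ω / (1 - κ * ω)) := by
  have h0 : 0 < 1 - κ * ω := by linarith
  have hle : ω ≤ ω / (1 - κ * ω) := by
    rw [le_div_iff₀ h0]
    nlinarith [mul_nonneg hκ0 hω0]
  induction n with
  | zero => exact hω.trans (ENNReal.ofReal_le_ofReal hle)
  | succ n ih =>
    refine (W_union_le _ _ _).trans ?_
    have h1 : W z (app (Ts i bad S) (app (KK i S L P Q) (Dec i bad S L P Q n))) ≤
        ENNReal.ofReal ω * (ENNReal.ofReal κ * ENNReal.ofReal (ω / (1 - κ * ω))) :=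
      (W_app_le _ _ _).trans (mul_le_mul' hω ((W_app_le _ _ _).trans (mul_le_mul' hκ ih)))
    refine (add_le_add hω h1).trans (le_of_eq ?_)
    rw [← ENNReal.ofReal_mul hκ0, ← ENNReal.ofReal_mul hω0, ← ENNReal.ofReal_add hω0 (by positivity)]
    congr 1
    have hy : ω / (1 - κ * ω) * (1 - κ * ω) = ω := div_mul_cancel₀ _ h0.ne'
    linear_combination -hy

/-- the limit value of the weight of the connectors is approached -/
theorem exists_L {z φ ω : ℝ} (hz0 : 0 < z) (hz1 : z < 1)
    (h : 2 * z ^ 2 * (2 - z) / (1 - z) ^ 2 * ω < 1) :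
    ∃ L : ℕ, (2 * ((z / (1 - z)) * (z * ((1 + z / (1 - z)) + 4 * (z ^ (L + 1) * φ))) +
      z * (z / (1 - z) + 4 * (z ^ (L + 1) * φ)))) * ω < 1 := by
  have h1z : 1 - z ≠ 0 := by linarith
  have hlim : Filter.Tendsto (fun L : ℕ => (2 * ((z / (1 - z)) * (z * ((1 + z / (1 - z)) +
      4 * (z ^ (L + 1) * φ))) + z * (z / (1 - z) + 4 * (z ^ (L + 1) * φ)))) * ω) Filter.atTop
      (nhds ((2 * ((z / (1 - z)) * (z * ((1 + z / (1 - z)) + 4 * (0 * φ))) +
      z * (z / (1 - z) + 4 * (0 * φ)))) * ω)) := by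
    have hp : Filter.Tendsto (fun L : ℕ => z ^ (L + 1)) Filter.atTop (nhds 0) :=
      (tendsto_pow_atTop_nhds_zero_of_lt_one hz0.le hz1).comp (Filter.tendsto_add_atTop_nat 1)
    have hp2 := (hp.mul_const φ).const_mul 4
    exact ((((hp2.const_add _).const_mul z).const_mul _).add
      ((hp2.const_add _).const_mul z)).const_mul 2 |>.mul_const ω
  have hval : (2 * ((z / (1 - z)) * (z * ((1 + z / (1 - z)) + 4 * (0 * φ))) +
      z * (z / (1 - z) + 4 * (0 * φ)))) * ω = 2 * z ^ 2 * (2 - z) / (1 - z) ^ 2 * ω := by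
    field_simp
    ring
  rw [hval] at hlim
  exact (hlim.eventually_lt_const h).exists

theorem decomp {i : α} {bad : (α × Bool) → (α × Bool) → Prop} {S : Set (List (α × Bool))}
    (hS : FactorClosed S) (L : ℕ) {P0 Q0 : Bool → List (α × Bool)} {u : List (α × Bool)}
    (hu : u ∈ S) (hz : ZRule i bad P0 Q0 u) {N : ℕ} (hN : u.length ≤ N) :
    u ∈ Zs i S ∪ app (Zs i S) (app (Dec i bad S L (fun s => (P0 s).take (L + 1))
        (fun s => (Q0 s).rtake (L + 1)) N) (Zs i S)) := by
  by_cases h : ∀ x ∈ u, x.1 ≠ i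
  · exact Or.inl ⟨hu, h⟩
  · right
    push Not at h
    obtain ⟨z0, s, v1, hv1, hz0⟩ := exists_first u h
    -- last occurrence
    obtain ⟨w, σ, v2, hv2, hw⟩ := exists_first (i := i) ((i, s) :: v1).reverse
      ⟨(i, s), by simp, rfl⟩
    have hsplit : (i, s) :: v1 = (v2.reverse ++ [(i, σ)]) ++ w.reverse := by
      have := congrArg List.reverse hv2
      simpa using this
    have hcons : ∃ v', v2.reverse ++ [(i, σ)] = (i, s) :: v' := by
      cases h : v2.reverse with
      | nil =>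
        rw [h] at hsplit
        simp only [List.nil_append, List.cons_append, List.cons.injEq] at hsplit
        exact ⟨[], by rw [← hsplit.1]; rfl⟩
      | cons c t =>
        rw [h] at hsplit
        simp only [List.cons_append, List.cons.injEq] at hsplit
        exact ⟨t ++ [(i, σ)], by rw [← hsplit.1]; rfl⟩
    obtain ⟨v', hv'⟩ := hcons
    have hu2 : u = z0 ++ ([] ++ ([] ++ (v2.reverse ++ [(i, σ)]))) ++ w.reverse := by
      rw [hv1, hsplit]; simp
    have hd := claim hS L hu hz N (v2.reverse ++ [(i, σ)]) s v' (by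
      have := congrArg List.length hu2
      simp only [List.length_append, List.length_nil] at this ⊢
      omega) hv' ⟨σ, by simp⟩ [] [] z0 w.reverse hu2 NB_nil (Or.inl rfl)
    simp only [List.nil_append] at hd hu2
    refine ⟨z0, ⟨?_, hz0⟩, _, ⟨_, hd, w.reverse, ⟨?_, ?_⟩, rfl⟩, by rw [hu2]; simp⟩
    · apply hS [] z0 ((v2.reverse ++ [(i, σ)]) ++ w.reverse)
      rw [hu2] at hu; simpa using hu
    · apply hS (z0 ++ (v2.reverse ++ [(i, σ)])) w.reverse []
      rw [hu2] at hu; simpa using hu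
    · intro x hx
      exact hw x (by simpa using hx)

end main

theorem stmtDict : StmtDict := by
  intro α _ _ i bad S z ω hz0 hz1 hS hω0 hΦ hω hlt
  have hΦ' : W (ENNReal.ofReal z) (Zs i S) < ⊤ := hΦ
  set Φ := W (ENNReal.ofReal z) (Zs i S) with hΦdef
  obtain ⟨L, hL⟩ := exists_L (φ := Φ.toReal) hz0 hz1 hlt
  set κ : ℝ := 2 * ((z / (1 - z)) * (z * ((1 + z / (1 - z)) + 4 * (z ^ (L + 1) * Φ.toReal))) +
      z * (z / (1 - z) + 4 * (z ^ (L + 1) * Φ.toReal))) with hκdef
  have h1z : 0 < 1 - z := by linarith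
  have hκ0 : 0 ≤ κ := by positivity
  have hgeo : ENNReal.ofReal z * (1 - ENNReal.ofReal z)⁻¹ = ENNReal.ofReal (z / (1 - z)) := by
    rw [div_eq_mul_inv, ENNReal.ofReal_mul hz0.le, ENNReal.ofReal_inv_of_pos h1z,
      ENNReal.ofReal_sub _ hz0.le, ENNReal.ofReal_one]
  have hD : 4 * (ENNReal.ofReal z ^ (L + 1) * Φ) =
      ENNReal.ofReal (4 * (z ^ (L + 1) * Φ.toReal)) := by
    rw [ENNReal.ofReal_mul (by norm_num), ENNReal.ofReal_mul (by positivity),
      ENNReal.ofReal_pow hz0.le, ENNReal.ofReal_toReal hΦ'.ne]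
    simp
  have hKK : ∀ P Q : Bool → List (α × Bool),
      W (ENNReal.ofReal z) (KK i S L P Q) ≤ ENNReal.ofReal κ := by
    intro P Q
    have h1 := W_KK (i := i) L P Q (ENNReal.ofReal z) _ (W_DB hS L P Q (ENNReal.ofReal z))
    refine h1.trans (le_of_eq ?_)
    rw [hgeo, ← hΦdef, hD, hκdef]
    have hA : 0 ≤ 4 * (z ^ (L + 1) * Φ.toReal) := by positivity
    have hB : 0 ≤ z / (1 - z) := by positivity
    rw [ENNReal.ofReal_mul (by norm_num : (0 : ℝ) ≤ 2), ENNReal.ofReal_add (by positivity)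
      (by positivity), ENNReal.ofReal_mul hB, ENNReal.ofReal_mul hz0.le,
      ENNReal.ofReal_add (by positivity) hA, ENNReal.ofReal_add zero_le_one hB,
      ENNReal.ofReal_mul hz0.le, ENNReal.ofReal_add hB hA, ENNReal.ofReal_one]
    simp
  let ι := (Bool → {l : List (α × Bool) // l.length ≤ L + 1}) ×
    (Bool → {l : List (α × Bool) // l.length ≤ L + 1})
  have hfin1 : Finite {l : List (α × Bool) // l.length ≤ L + 1} :=
    (List.finite_length_le (α × Bool) (L + 1)).to_subtype
  have hfin : Finite ι := inferInstance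
  let _ : Fintype ι := Fintype.ofFinite ι
  set C : ℝ≥0∞ := ∑ _x : ι, (Φ + Φ * (ENNReal.ofReal (ω / (1 - κ * ω)) * Φ)) with hC
  have hCtop : C < ⊤ := by
    rw [hC, Finset.sum_const]
    rw [nsmul_eq_mul]
    refine ENNReal.mul_lt_top (ENNReal.natCast_lt_top _) (ENNReal.add_lt_top.2 ⟨hΦ', ?_⟩)
    exact ENNReal.mul_lt_top hΦ' (ENNReal.mul_lt_top ENNReal.ofReal_lt_top hΦ')
  refine lt_of_le_of_lt (W_le_of_trunc (C := C) fun N => ?_) hCtop
  have hsub : {u | u ∈ S ∧ ∃ P Q, ZRule i bad P Q u} ∩ {w | w.length ≤ N} ⊆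
      ⋃ x : ι, (Zs i S ∪ app (Zs i S) (app (Dec i bad S L (fun s => (x.1 s : List (α × Bool)))
        (fun s => (x.2 s : List (α × Bool))) N) (Zs i S))) := by
    rintro u ⟨⟨hu, P, Q, hz⟩, hN⟩
    refine Set.mem_iUnion.2 ⟨(fun s => ⟨(P s).take (L + 1), ?_⟩, fun s =>
      ⟨(Q s).rtake (L + 1), ?_⟩), decomp hS L hu hz hN⟩
    · rw [List.length_take]; omega
    · rw [List.rtake_eq_reverse_take_reverse, List.length_reverse, List.length_take]; omega
  refine (W_mono hsub).trans ((W_iUnion_le _ _).trans (Finset.sum_le_sum fun x _ => ?_))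
  refine (W_union_le _ _ _).trans (add_le_add le_rfl ?_)
  refine (W_app_le _ _ _).trans (mul_le_mul' le_rfl ((W_app_le _ _ _).trans
    (mul_le_mul' ?_ le_rfl)))
  exact W_Dec L _ _ (ENNReal.ofReal z) ω κ hω0 hκ0 hL hω (hKK _ _) N

end Pool.Agent.Helper96.PX
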